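import Pool.Agent.Lib.MP_ba0fa5_ag.H1.Gint

/-!
MP_ba0fa5_ag, module GCONST (helper69): `k` is algebraically closed in `K`.
-/

namespace Pool.Agent.Lib.MP_ba0fa5_ag.H69

open scoped Classical
open Polynomial
open Pool.Agent.Lib.MP_ba0fa5_ag.H1

/-- an algebraic element of `k(X)` is constant -/
theorem rat_const {k : Type} [Field k] {w : RatFunc k} (hw : IsAlgebraic k w) :
    ∃ κ : k, algebraMap k (RatFunc k) κ = w := by
  have h1 : IsIntegral k w := hw.isIntegral
  have h2 : IsIntegral (Algebra.adjoin k {(RatFunc.X : RatFunc k)}) w := h1.tower_top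
  obtain ⟨p, rfl⟩ := (mem_adjoin_X w).1 (int_X h2)
  have h3 : IsAlgebraic k p :=
    (isAlgebraic_algebraMap_iff (RatFunc.algebraMap_injective k)).1 hw
  have h4 : p.natDegree = 0 := by
    by_contra h
    have h5 := Polynomial.transcendental p h (by
      rw [mem_nonZeroDivisors_iff_ne_zero]
      exact leadingCoeff_ne_zero.2 (fun h0 => h (by rw [h0, natDegree_zero])))
    exact h5 h3
  obtain ⟨κ, rfl⟩ := natDegree_eq_zero.1 h4
  exact ⟨κ, by rw [RatFunc.algebraMap_C, RatFunc.algebraMap_eq_C]⟩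

theorem dvd_aux {k : Type} [Field k] {m A B : ℕ} {κ : k} (hκ : κ ≠ 0) {P Q : k[X]} (hP : P ≠ 0)
    (hQ : Q ≠ 0) (h1 : P ^ m * (X ^ A * (1 - X) ^ B) = C κ * Q ^ m) : m ∣ A ∧ m ∣ B := by
  have h1X : (1 - X : k[X]) ≠ 0 := by
    intro h
    have h2 := congrArg (Polynomial.eval 0) h
    simp at h2
  have hX : (X : k[X]) ≠ 0 := X_ne_zero
  have hXX : (X ^ A * (1 - X) ^ B : k[X]) ≠ 0 := mul_ne_zero (pow_ne_zero _ hX) (pow_ne_zero _ h1X)
  have hC : (C κ : k[X]) ≠ 0 := by simpa using hκ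
  have key : ∀ c : k, m * rootMultiplicity c P +
      (A * rootMultiplicity c (X : k[X]) + B * rootMultiplicity c (1 - X : k[X])) =
        m * rootMultiplicity c Q := by
    intro c
    have h2 := congrArg (rootMultiplicity c) h1
    rw [rootMultiplicity_mul (mul_ne_zero (pow_ne_zero _ hP) hXX),
      rootMultiplicity_mul hXX, rootMultiplicity_mul (mul_ne_zero hC (pow_ne_zero _ hQ)),
      rootMultiplicity_C, zero_add] at h2
    have hpow : ∀ (F : k[X]) (n : ℕ), F ≠ 0 → rootMultiplicity c (F ^ n) =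
        n * rootMultiplicity c F := by
      intro F n hF
      induction n with
      | zero => simp
      | succ n ih =>
        rw [pow_succ, rootMultiplicity_mul (mul_ne_zero (pow_ne_zero _ hF) hF), ih]
        ring
    rw [hpow _ _ hX, hpow _ _ h1X, hpow _ _ hQ, hpow _ _ hP] at h2
    exact h2
  have hr00 : rootMultiplicity (0 : k) X = 1 := by
    have h2 := rootMultiplicity_X_sub_C_self (x := (0 : k))
    simpa using h2
  have hr01 : rootMultiplicity (0 : k) (1 - X) = 0 :=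
    rootMultiplicity_eq_zero (by simp [IsRoot])
  have hr10 : rootMultiplicity (1 : k) X = 0 :=
    rootMultiplicity_eq_zero (by simp [IsRoot])
  have hr11 : rootMultiplicity (1 : k) (1 - X) = 1 := by
    have h2 := rootMultiplicity_X_sub_C_self (x := (1 : k))
    have h3 : (1 - X : k[X]) = C (-1) * (X - C 1) := by
      simp
    rw [h3, rootMultiplicity_mul (by
      rw [← h3]
      exact h1X), h2, rootMultiplicity_C]
  constructor
  · have h2 := key 0
    rw [hr00, hr01, mul_one, mul_zero, add_zero] at h2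
    exact (Nat.dvd_add_right (Dvd.intro _ rfl)).1 (h2 ▸ Dvd.intro _ rfl)
  · have h2 := key 1
    rw [hr10, hr11, mul_one, mul_zero, zero_add] at h2
    exact (Nat.dvd_add_right (Dvd.intro _ rfl)).1 (h2 ▸ Dvd.intro _ rfl)

theorem dvd_of_const {k : Type} [Field k] {m A B : ℕ} {κ : k} {w : RatFunc k} (hw : w ≠ 0)
    (h : w ^ m * (RatFunc.X ^ A * (1 - RatFunc.X) ^ B) = algebraMap k (RatFunc k) κ) :
    m ∣ A ∧ m ∣ B := by
  obtain ⟨P, Q, hQ, rfl⟩ : ∃ P Q : k[X], Q ≠ 0 ∧ w = algebraMap k[X] (RatFunc k) P /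
      algebraMap k[X] (RatFunc k) Q := by
    induction w using RatFunc.induction_on with
    | f P Q hQ => exact ⟨P, Q, hQ, rfl⟩
  have hQ' : algebraMap k[X] (RatFunc k) Q ≠ 0 := RatFunc.algebraMap_ne_zero hQ
  have hP : P ≠ 0 := by
    rintro rfl
    exact hw (by rw [map_zero, zero_div])
  have hf := ff_ne_zero (k := k) A B
  unfold ff at hf
  have hκ : κ ≠ 0 := by
    rintro rfl
    rw [map_zero] at h
    exact mul_ne_zero (pow_ne_zero _ hw) hf h
  refine dvd_aux hκ hP hQ ?_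
  apply RatFunc.algebraMap_injective k
  have hc : algebraMap k[X] (RatFunc k) (C κ) = algebraMap k (RatFunc k) κ := by
    rw [RatFunc.algebraMap_C, RatFunc.algebraMap_eq_C]
  rw [div_pow, div_mul_eq_mul_div, div_eq_iff (pow_ne_zero _ hQ')] at h
  simp only [map_mul, map_pow, map_sub, map_one, RatFunc.algebraMap_X, hc]
  exact h

/-- **GCONST** -/
theorem gconst : GconstStmt := by
  intro k K _ _ _ m a b ι y h hm hζ hab z hz
  obtain ⟨ζ, hζ⟩ := hζ
  obtain ⟨c, hc, -⟩ := h.basis z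
  obtain ⟨σ, h1, h2⟩ := exists_avg h hζ
  have hσ : ∀ j, IsAlgebraic k (σ j z) := by
    intro j
    have h3 : ∀ r : k, σ j (algebraMap k K r) = algebraMap k K r := by
      intro r
      rw [← ι.commutes r]
      exact h1 j _
    let σ' : K →ₐ[k] K := { (σ j) with commutes' := h3 }
    exact hz.algHom σ'
  have halg : ∀ i : Fin m, IsAlgebraic k (ι (c i) * y ^ (i : ℕ)) := by
    intro i
    rw [h2 c i, ← hc]
    have h3 : ∀ s : Finset ℕ, IsIntegral k (∑ j ∈ s,
        algebraMap k K ((m : k)⁻¹ * (ζ ^ ((i : ℕ) * j))⁻¹) * σ j z) := by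
      intro s
      refine IsIntegral.sum _ fun j _ => ?_
      exact (isIntegral_algebraMap).mul (hσ j).isIntegral
    exact (h3 _).isAlgebraic
  have hrat : ∀ i : Fin m, ∃ κ : k, algebraMap k (RatFunc k) κ =
      c i ^ m * (RatFunc.X ^ (a * i) * (1 - RatFunc.X) ^ (b * i)) := by
    intro i
    apply rat_const
    have h3 : IsAlgebraic k ((ι (c i) * y ^ (i : ℕ)) ^ m) := (halg i).pow m
    have h4 : (ι (c i) * y ^ (i : ℕ)) ^ m =
        ι (c i ^ m * (RatFunc.X ^ (a * i) * (1 - RatFunc.X) ^ (b * i))) := by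
      rw [mul_pow, ← pow_mul, mul_comm (i : ℕ) m, pow_mul, h.eq]
      simp only [map_mul, map_pow]
      ring
    rw [h4] at h3
    exact (isAlgebraic_algHom_iff ι ι.toRingHom.injective).1 h3
  have hzero : ∀ i : Fin m, (i : ℕ) ≠ 0 → c i = 0 := by
    intro i hi
    by_contra hne
    obtain ⟨κ, hκ⟩ := hrat i
    obtain ⟨hA, hB⟩ := dvd_of_const hne hκ.symm
    have h5 : m ∣ (a.gcd b).gcd m * i := by
      have h6 : m ∣ (a.gcd b) * i := by
        have h6' : a.gcd b * i = (a * i).gcd (b * i) := (Nat.gcd_mul_right _ _ _).symm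
        rw [h6']
        exact Nat.dvd_gcd hA hB
      have h7 : ((a.gcd b).gcd m) * i = (a.gcd b * i).gcd (m * i) := (Nat.gcd_mul_right _ _ _).symm
      rw [h7]
      exact Nat.dvd_gcd h6 (Dvd.intro _ rfl)
    rw [hab, one_mul] at h5
    exact hi (Nat.eq_zero_of_dvd_of_lt h5 i.2)
  have hz0 : z = ι (c ⟨0, hm⟩) := by
    rw [hc, Finset.sum_eq_single (⟨0, hm⟩ : Fin m)]
    · simp
    · intro i _ hi
      rw [hzero i (fun h0 => hi (Fin.ext h0)), map_zero, zero_mul]
    · intro h0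
      exact (h0 (Finset.mem_univ _)).elim
  have h8 : IsAlgebraic k (c ⟨0, hm⟩) := by
    rw [hz0] at hz
    exact (isAlgebraic_algHom_iff ι ι.toRingHom.injective).1 hz
  obtain ⟨κ, hκ⟩ := rat_const h8
  exact ⟨κ, by rw [hz0, ← hκ, ι.commutes]⟩

end Pool.Agent.Lib.MP_ba0fa5_ag.H69
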